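import Pool.Agent.H5.Mc4a975Defs

set_option autoImplicit false

namespace Pool.Agent.Results.MP_c4a975_al.MinimalIdeal

open Pool.Agent.H5.Mc4a975

/-- A three-dimensional algebra over the field with two elements, basis `e, x, r`, nonzero products
`ee = e`, `xe = x`, `xr = rx = e`. -/
def R : Type := ZMod 2 × ZMod 2 × ZMod 2

instance : AddCommGroup R := inferInstanceAs (AddCommGroup (ZMod 2 × ZMod 2 × ZMod 2))
instance : DecidableEq R := inferInstanceAs (DecidableEq (ZMod 2 × ZMod 2 × ZMod 2))
instance : Fintype R := inferInstanceAs (Fintype (ZMod 2 × ZMod 2 × ZMod 2))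

def mk (a b c : ZMod 2) : R := (a, b, c)

instance : Mul R := ⟨fun u v => (u.1 * v.1 + u.2.1 * v.2.2 + u.2.2 * v.2.1, u.2.1 * v.1, 0)⟩

instance : NonUnitalNonAssocRing R where
  left_distrib := by decide
  right_distrib := by decide
  zero_mul := by decide
  mul_zero := by decide

theorem ra : RightAlternative R := by
  unfold RightAlternative
  decide

/-- the ideal spanned by `e` and `x` -/
def I : AddSubgroup R where
  carrier := {u | u.2.2 = 0}
  zero_mem' := rfl
  add_mem' := by
    intro a b ha hb
    show a.2.2 + b.2.2 = 0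
    rw [show a.2.2 = 0 from ha, show b.2.2 = 0 from hb, add_zero]
  neg_mem' := by
    intro a ha
    show -a.2.2 = 0
    rw [show a.2.2 = 0 from ha, neg_zero]

theorem mem_I (u : R) : u ∈ I ↔ u.2.2 = 0 := Iff.rfl

def e : R := mk 1 0 0
def x : R := mk 0 1 0
def r : R := mk 0 0 1

theorem I_cases : ∀ u : R, u.2.2 = 0 → u = 0 ∨ u = e ∨ u = x ∨ u = e + x := by decide

theorem ideal_I : IsIdealOf I ⊤ :=
  ⟨le_top, fun _ _ _ _ => ⟨rfl, rfl⟩⟩

theorem I_le {J : AddSubgroup R} (he : e ∈ J) (hx : x ∈ J) : I ≤ J := by
  intro u hu
  rcases I_cases u hu with rfl | rfl | rfl | rfl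
  · exact zero_mem J
  · exact he
  · exact hx
  · exact add_mem he hx

theorem minimal : IsMinimalIdeal I := by
  refine ⟨ideal_I, ?_, ?_⟩
  · intro h
    have h1 : e ∈ I := rfl
    rw [h, AddSubgroup.mem_bot] at h1
    exact absurd h1 (by decide)
  · intro J hJ hle
    by_cases hb : J = ⊥
    · exact Or.inl hb
    · right
      obtain ⟨u, hu, hu0⟩ := (AddSubgroup.bot_or_exists_ne_zero J).resolve_left hb
      have hmul := fun a b hb => (hJ.2 a (AddSubgroup.mem_top a) b hb)
      have he : e ∈ J := by
        rcases I_cases u (hle hu) with rfl | rfl | rfl | rfl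
        · exact absurd rfl hu0
        · exact hu
        · have := (hmul r _ hu).1
          rwa [show r * x = e by decide] at this
        · have := (hmul r _ hu).1
          rwa [show r * (e + x) = e by decide] at this
      have hx : x ∈ J := by
        have := (hmul x _ he).1
        rwa [show x * e = x by decide] at this
      exact le_antisymm hle (I_le he hx)

theorem not_simple : ¬ SimpleAsRing I := by
  rintro ⟨_, h⟩
  have hJ : IsIdealOf (AddSubgroup.closure {x}) I := by
    have key : ∀ u : R, u ∈ AddSubgroup.closure ({x} : Set R) ↔ u = 0 ∨ u = x := by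
      intro u
      rw [AddSubgroup.mem_closure_singleton]
      constructor
      · rintro ⟨n, rfl⟩
        rcases Int.even_or_odd n with ⟨k, rfl⟩ | ⟨k, rfl⟩
        · left
          rw [add_smul, ← smul_add, show x + x = 0 by decide, smul_zero]
        · right
          rw [add_smul, two_mul, add_smul, ← smul_add, show x + x = 0 by decide, smul_zero,
            zero_add, one_smul]
      · rintro (rfl | rfl)
        · exact ⟨0, zero_smul _ _⟩
        · exact ⟨1, one_smul _ _⟩
    refine ⟨?_, ?_⟩
    · intro u hu
      rcases (key u).1 hu with rfl | rfl <;> rfl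
    · intro a ha u hu
      rw [key, key]
      rcases (key u).1 hu with rfl | rfl <;>
        rcases I_cases a ha with rfl | rfl | rfl | rfl <;> decide
  rcases h _ hJ with h | h
  · have : x ∈ AddSubgroup.closure ({x} : Set R) := AddSubgroup.subset_closure rfl
    rw [h, AddSubgroup.mem_bot] at this
    exact absurd this (by decide)
  · have h1 : e ∈ AddSubgroup.closure ({x} : Set R) := by rw [h]; rfl
    rw [AddSubgroup.mem_closure_singleton] at h1
    obtain ⟨n, hn⟩ := h1
    have h2 : ∀ n : ℤ, (n • x).1 = 0 := by
      intro n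
      show n • (0 : ZMod 2) = 0
      exact smul_zero n
    have h3 := h2 n
    rw [hn] at h3
    exact absurd h3 (by decide)

theorem prod_I {A : AddSubgroup R} (hA : I ≤ A) : I ≤ prod A I := by
  apply I_le
  · exact AddSubgroup.subset_closure ⟨e, hA rfl, e, rfl, by decide⟩
  · exact AddSubgroup.subset_closure ⟨x, hA rfl, e, rfl, by decide⟩

theorem ne_bot {A : AddSubgroup R} (hA : I ≤ A) : A ≠ ⊥ := by
  rintro rfl
  have h1 : e ∈ (⊥ : AddSubgroup R) := hA rfl
  rw [AddSubgroup.mem_bot] at h1
  exact absurd h1 (by decide)

theorem not_solvable : ¬ Solvable I := by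
  rintro ⟨k, hk⟩
  have : ∀ k, I ≤ derived I k := by
    intro k
    induction k with
    | zero => exact le_rfl
    | succ k ih =>
      refine (prod_I ih).trans ?_
      apply AddSubgroup.closure_mono
      rintro z ⟨a, ha, b, hb, rfl⟩
      exact ⟨a, ha, b, ih hb, rfl⟩
  exact ne_bot (this k) hk

theorem not_rightNilpotent : ¬ RightNilpotent I := by
  rintro ⟨k, hk⟩
  have : ∀ k, I ≤ rightPower I k := by
    intro k
    induction k with
    | zero => exact le_rfl
    | succ k ih => exact prod_I ih
  exact ne_bot (this k) hk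

/-- There is a right alternative ring with a minimal ideal which is neither simple as a ring, nor
solvable, nor right nilpotent. -/
theorem result : ∃ (R : Type) (_ : NonUnitalNonAssocRing R) (I : AddSubgroup R),
    RightAlternative R ∧ IsMinimalIdeal I ∧
      ¬ SimpleAsRing I ∧ ¬ Solvable I ∧ ¬ RightNilpotent I :=
  ⟨R, inferInstance, I, ra, minimal, not_simple, not_solvable, not_rightNilpotent⟩

end Pool.Agent.Results.MP_c4a975_al.MinimalIdeal
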